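import Pool.Agent.H90.QC.Par

/-!
# PA0: the parameters for quantum algorithms without quantifiers
-/

set_option autoImplicit false

namespace Pool.Agent.H90.QC

open Finset Filter Pool.Agent.H70.OQ Pool.Agent.H68.QC

theorem pf_PA0 : T_PA0 := by
  intro k c C ε hε
  obtain ⟨B, hB⟩ := par (k + 1) c
  set δ := min ε (1 / 2) with hδdef
  have hδ : 0 < δ := lt_min hε (by norm_num)
  have hδε : δ ≤ ε := min_le_left _ _
  have hδ2 : δ ≤ 1 / 2 := min_le_right _ _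
  filter_upwards [elam_le k B hδ (by linarith),
    ev_pow (100 * (2 * k + 2)) 0 (r := 2) (by norm_num),
    ev_rpow (6400 * (2 * (576 * ((C : ℝ) + 1) ^ 2) + 6)) (2 * B) (δ := 2 * δ) (by linarith),
    eventually_ge_atTop (2 * (k + 1) + 23)] with n hel he1 he2 hn m hm1 hm
  have hn0 : 0 < n := by omega
  obtain ⟨hg, hel⟩ := hel
  obtain ⟨t, w, ht, ht1, htw, hw, hwB, htB⟩ := hB n (by omega) m hm1 hm
  set g := ⌊δ * n⌋₊ with hgdef
  set P : ℝ := (C * 2 ^ ((1 / 2 - ε) * n) : ℝ) ^ 2 with hP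
  have hP0 : 0 ≤ P := sq_nonneg _
  have ht0 : (1 : ℝ) ≤ t 0 := by exact_mod_cast ht1 0 (Nat.zero_le _)
  have ht0B : ((t 0 : ℕ) : ℝ) ≤ (n : ℝ) ^ B := by exact_mod_cast htB 0 (Nat.zero_le _)
  have hw0 : (1 : ℝ) ≤ w 0 := by exact_mod_cast (hwB 0 (by omega)).1
  have hw0B : ((w 0 : ℕ) : ℝ) ≤ (n : ℝ) ^ B := by exact_mod_cast (hwB 0 (by omega)).2
  have hnB : (1 : ℝ) ≤ (n : ℝ) ^ B := ht0.trans ht0B
  set m0 := ⌈576 * P * t 0⌉₊ with hm0
  have hm0' : (m0 : ℝ) ≤ 576 * P * t 0 + 1 := (Nat.ceil_lt_add_one (by positivity)).le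
  set S : ℝ := ((C : ℝ) + 1) ^ 2 * 2 ^ ((1 - 2 * δ) * n) with hS
  have hPS : P ≤ S := by
    have h1 := qr_le C hδε hδ2 n
    rw [← hS] at h1
    refine le_trans ?_ h1
    rw [hP]
    have h2 : (0 : ℝ) ≤ C * 2 ^ ((1 / 2 - ε) * n) := by positivity
    nlinarith
  refine ⟨t, w, 64 * w 0 * (2 * m0 + 4), g, m0, ht, ht1, htw, hg, Nat.le_ceil _, ?_, ?_, ?_⟩
  · push_cast
    have h1 : 64 * (w 0 : ℝ) * (2 * m0 + 4) * (1 / (64 * w 0)) = 2 * m0 + 4 := by
      have h3 : (w 0 : ℝ) ≠ 0 := by linarith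
      field_simp
    rw [h1]
    linarith
  · have h1 : ((100 * (64 * w 0 * (2 * m0 + 4)) : ℕ) : ℝ) ≤ ((2 ^ n : ℕ) : ℝ) := by
      push_cast
      have h7 : (1 : ℝ) ≤ 2 ^ ((1 - 2 * δ) * n) := by
        apply Real.one_le_rpow (by norm_num)
        apply mul_nonneg (by linarith) (by positivity)
      have h2 : (m0 : ℝ) ≤ 576 * S * (n : ℝ) ^ B + 1 := by
        refine hm0'.trans ?_
        have h3 : 576 * P * t 0 ≤ 576 * S * (n : ℝ) ^ B := by
          apply mul_le_mul (by linarith) ht0B (by linarith)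
          linarith
        linarith
      have h4 : (2 * m0 + 4 : ℝ) ≤
          2 ^ ((1 - 2 * δ) * n) * ((2 * (576 * ((C : ℝ) + 1) ^ 2) + 6) * (n : ℝ) ^ B) := by
        have h5 : (1 : ℝ) ≤ 2 ^ ((1 - 2 * δ) * n) * (n : ℝ) ^ B := by nlinarith
        calc (2 * m0 + 4 : ℝ) ≤ 2 * (576 * S * (n : ℝ) ^ B) + 6 * 1 := by linarith
          _ ≤ 2 * (576 * S * (n : ℝ) ^ B) + 6 * (2 ^ ((1 - 2 * δ) * n) * (n : ℝ) ^ B) := by
              linarith
          _ = _ := by rw [hS]; ring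
      have h6 : (2 : ℝ) ^ n = 2 ^ ((1 - 2 * δ) * n) * 2 ^ (2 * δ * n) := by
        rw [← Real.rpow_add (by norm_num), ← Real.rpow_natCast]
        congr 1
        ring
      calc (100 * (64 * (w 0 : ℝ) * (2 * m0 + 4)))
          ≤ 100 * (64 * (n : ℝ) ^ B * (2 ^ ((1 - 2 * δ) * n) *
            ((2 * (576 * ((C : ℝ) + 1) ^ 2) + 6) * (n : ℝ) ^ B))) := by
            have h8 : (0 : ℝ) ≤ 2 * m0 + 4 := by positivity
            have h9 : 64 * (w 0 : ℝ) * (2 * m0 + 4) ≤ 64 * (n : ℝ) ^ B * (2 ^ ((1 - 2 * δ) * n) *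
                ((2 * (576 * ((C : ℝ) + 1) ^ 2) + 6) * (n : ℝ) ^ B)) := by
              apply mul_le_mul (by linarith) h4 h8 (by positivity)
            linarith
        _ = 2 ^ ((1 - 2 * δ) * n) * (6400 * (2 * (576 * ((C : ℝ) + 1) ^ 2) + 6) *
            (n : ℝ) ^ (2 * B)) := by
            rw [mul_comm 2 B, pow_mul]; ring
        _ ≤ 2 ^ ((1 - 2 * δ) * n) * 2 ^ (2 * δ * n) :=
            mul_le_mul_of_nonneg_left he2 (by positivity)
        _ = 2 ^ n := h6.symm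
    exact_mod_cast h1
  · -- the sum of the errors
    have s1 : ∑ r ∈ range k, (erho m (t (r + 2)) (w (r + 1)) (r + 1) +
        elam n r g (1 / (64 * w (r + 1)))) ≤ k * (2 * (1 / 2 ^ n)) := by
      have h1 : ∀ r ∈ range k, erho m (t (r + 2)) (w (r + 1)) (r + 1) +
          elam n r g (1 / (64 * w (r + 1))) ≤ 2 * (1 / 2 ^ n) := by
        intro r hr
        have hr' : r < k := mem_range.1 hr
        have h2 : erho m (t (r + 2)) (w (r + 1)) (r + 1) ≤ 1 / 2 ^ n :=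
          erho_le (hw (r + 1) (by omega))
        have h3 := hel r (by omega) (w (r + 1)) (hwB (r + 1) (by omega)).1
          (hwB (r + 1) (by omega)).2
        linarith
      calc _ ≤ ∑ r ∈ range k, 2 * ((1 : ℝ) / 2 ^ n) := sum_le_sum h1
        _ = k * (2 * (1 / 2 ^ n)) := by rw [sum_const, card_range, nsmul_eq_mul]
    have s2 : erho m (t 1) (w 0) 0 ≤ 1 / 2 ^ n := erho_le (hw 0 (by omega))
    have s5 : (2 * k + 2) * (1 / (2 : ℝ) ^ n) ≤ 1 / 100 := by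
      rw [mul_one_div, div_le_div_iff₀ (by positivity) (by norm_num)]
      simp only [pow_zero, mul_one] at he1
      linarith
    have s6 : k * (2 * (1 / (2 : ℝ) ^ n)) + 2 * (1 / 2 ^ n) =
        (2 * k + 2) * (1 / 2 ^ n) := by ring
    linarith

end Pool.Agent.H90.QC
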