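import Pool.Agent.H90.QC.Par

/-!
# PAJ: the parameters for at least one quantifier
-/

set_option autoImplicit false

namespace Pool.Agent.H90.QC

open Finset Filter Pool.Agent.H70.OQ Pool.Agent.H68.QC

theorem D_le (i0 c n m : ℕ) (hn : 15 * i0 + 200 ≤ n) (hm : m ≤ n ^ c) :
    2 * (m + 10) + (m + 1 + 1) * (i0 + 2) + 10 * n + 10 * i0 + 20 + ((m + 1) * (i0 + 2) + n) ≤
      n ^ (c + 2) := by
  have hn0 : 0 < n := by omega
  have h1 : m ≤ n ^ (c + 1) := hm.trans (Nat.pow_le_pow_right hn0 (by omega))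
  have h2 : n ≤ n ^ (c + 1) := Nat.le_self_pow (by omega) n
  have h3 : 1 ≤ n ^ (c + 1) := Nat.one_le_pow _ _ hn0
  have h4 : m * (2 * i0 + 6) ≤ n ^ (c + 1) * (2 * i0 + 6) := Nat.mul_le_mul_right _ h1
  have h5 : (13 * i0 + 194) * 1 ≤ (13 * i0 + 194) * n ^ (c + 1) := Nat.mul_le_mul_left _ h3
  calc 2 * (m + 10) + (m + 1 + 1) * (i0 + 2) + 10 * n + 10 * i0 + 20 + ((m + 1) * (i0 + 2) + n)
      = m * (2 * i0 + 6) + (13 * i0 + 46) + 11 * n := by ring
    _ ≤ n ^ (c + 1) * (2 * i0 + 6) + (13 * i0 + 183) * n ^ (c + 1) + 11 * n ^ (c + 1) := by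
        have h6 : (13 * i0 + 183) * 1 ≤ (13 * i0 + 183) * n ^ (c + 1) :=
          Nat.mul_le_mul_left _ h3
        omega
    _ = (15 * i0 + 200) * n ^ (c + 1) := by ring
    _ ≤ n * n ^ (c + 1) := Nat.mul_le_mul_right _ hn
    _ = n ^ (c + 2) := by ring

theorem pf_PAJ : T_PAJ := by
  intro k i0 c C ε hε
  obtain ⟨B, hB⟩ := par k c
  set δ := min ε (1 / 2) with hδdef
  have hδ : 0 < δ := lt_min hε (by norm_num)
  have hδε : δ ≤ ε := min_le_left _ _
  have hδ2 : δ ≤ 1 / 2 := min_le_right _ _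
  filter_upwards [elam_le (i0 + k) B hδ (by linarith), Pool.Agent.H70.OQ.pf_ERR (c + 2) i0,
    ev_pow (200 * (2 * k + 5)) 0 (r := 2) (by norm_num),
    ev_pow 12800 (2 * (c + 2)) (r := 2) (by norm_num),
    ev_rpow ((2 * 2 ^ (i0 + 1) + 1) * (2 * 10 ^ 4 * ((C : ℝ) + 1) ^ 2)) (B + (c + 2) + 1) hδ,
    eventually_ge_atTop (2 * k + 23 + (15 * i0 + 200))] with n hel herr he1 he2 he3 hn m hm1 hm
  have hn0 : 0 < n := by omega
  obtain ⟨hg, hel⟩ := hel
  obtain ⟨t, w, ht, ht1, htw, hw, hwB, htB⟩ := hB n (by omega) m hm1 hm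
  set g := ⌊δ * n⌋₊ with hgdef
  set D := 2 * (m + 10) + (m + 1 + 1) * (i0 + 2) + 10 * n + 10 * i0 + 20 +
    ((m + 1) * (i0 + 2) + n) with hD
  have hDn : D ≤ n ^ (c + 2) := D_le i0 c n m (by omega) hm
  have hD1 : 1 ≤ D := by omega
  have hD0 : (0 : ℝ) < D := by exact_mod_cast hD1
  have hDR : (1 : ℝ) ≤ D := by exact_mod_cast hD1
  have hDnR : (D : ℝ) ≤ (n : ℝ) ^ (c + 2) := by exact_mod_cast hDn
  have ht0 : (1 : ℝ) ≤ t 0 := by exact_mod_cast ht1 0 (Nat.zero_le _)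
  have ht0B : ((t 0 : ℕ) : ℝ) ≤ (n : ℝ) ^ B := by exact_mod_cast htB 0 (Nat.zero_le _)
  set S : ℝ := ((C : ℝ) + 1) ^ 2 * 2 ^ ((1 - 2 * δ) * n) with hS
  have hC0 : (0 : ℝ) ≤ C := Nat.cast_nonneg C
  have hS1 : 1 ≤ S := by
    have h1 : (1 : ℝ) ≤ ((C : ℝ) + 1) ^ 2 := one_le_pow₀ (by linarith)
    have h2 : (1 : ℝ) ≤ 2 ^ ((1 - 2 * δ) * n) := by
      apply Real.one_le_rpow (by norm_num)
      apply mul_nonneg (by linarith) (by positivity)
    exact one_le_mul_of_one_le_of_one_le h1 h2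
  have hS0 : 0 < S := by linarith
  have hden : 1 ≤ S * t 0 * D :=
    one_le_mul_of_one_le_of_one_le (one_le_mul_of_one_le_of_one_le hS1 ht0) hDR
  have hden0 : 0 < 2 * 10 ^ 4 * (S * t 0 * D) := by positivity
  set q2 : ℝ := 1 / (2 * 10 ^ 4 * (S * t 0 * D)) with hq2
  have hq0 : 0 < q2 := by positivity
  have hq12 : q2 ≤ 1 / 2 := by
    rw [hq2]
    apply one_div_le_one_div_of_le (by norm_num)
    linarith
  refine ⟨t, w, D, 128 * D ^ 2, g, q2, ht, ht1, htw, hg, hD1, hq0, hq12, ?_, ?_, ?_, ?_⟩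
  · have h1 := qr_le C hδε hδ2 n
    rw [← hS] at h1
    set Q : ℝ := (C * 2 ^ ((1 / 2 - ε) * n) + 1 : ℝ) ^ 2 with hQ
    have h2 : 2 * 10 ^ 4 * q2 * Q * (t 0 : ℝ) * D = Q / S := by
      rw [hq2]
      have h3 : (t 0 : ℝ) ≠ 0 := by linarith
      field_simp
    rw [h2, div_le_one hS0]
    exact h1
  · push_cast
    have h1 : 128 * (D : ℝ) ^ 2 * (1 / (64 * D)) = 2 * D := by
      field_simp
      norm_num
    rw [h1]
  · have h1 : (D : ℝ) ^ 2 ≤ (n : ℝ) ^ (2 * (c + 2)) := by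
      rw [mul_comm, pow_mul]
      exact pow_le_pow_left₀ hD0.le hDnR 2
    have h2 : ((100 * (128 * D ^ 2) : ℕ) : ℝ) ≤ ((2 ^ n : ℕ) : ℝ) := by
      push_cast
      linarith
    exact_mod_cast h2
  · -- the sum of the errors
    have hp : (0 : ℝ) < 1 / 2 ^ n := by positivity
    have s1 : ∑ r ∈ range k, (erho m (t (r + 1)) (w r) r +
        elam n (i0 + r) g (1 / (64 * w r))) ≤ k * (2 * (1 / 2 ^ n)) := by
      have h1 : ∀ r ∈ range k, erho m (t (r + 1)) (w r) r +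
          elam n (i0 + r) g (1 / (64 * w r)) ≤ 2 * (1 / 2 ^ n) := by
        intro r hr
        have hr' : r < k := mem_range.1 hr
        have h2 := erho_le (hw r hr')
        have h3 := hel (i0 + r) (by omega) (w r) (hwB r hr').1 (hwB r hr').2
        linarith
      calc _ ≤ ∑ r ∈ range k, 2 * ((1 : ℝ) / 2 ^ n) := sum_le_sum h1
        _ = k * (2 * (1 / 2 ^ n)) := by rw [sum_const, card_range, nsmul_eq_mul]
    have s2 : (2 : ℝ) ^ ((m + 1) * (i0 + 2)) * (4 / 2 ^ D) ≤ 4 * (1 / 2 ^ n) := by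
      have h1 : (2 : ℝ) ^ ((m + 1) * (i0 + 2) + n) ≤ 2 ^ D :=
        pow_le_pow_right₀ (by norm_num) (by omega)
      rw [pow_add] at h1
      have h2 : (2 : ℝ) ^ ((m + 1) * (i0 + 2)) * (4 / 2 ^ D) =
          4 * 2 ^ ((m + 1) * (i0 + 2)) / 2 ^ D := by ring
      have h3 : 4 * (1 / (2 : ℝ) ^ n) = 4 / 2 ^ n := by ring
      rw [h2, h3, div_le_div_iff₀ (by positivity) (by positivity)]
      linarith
    have s3 : ((2 : ℝ) ^ nod n i0) ^ 2 * (1 - q2) ^ 2 ^ (n - g) ≤ 1 / 2 ^ n := by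
      have hM : ((2 * nod n i0 + n : ℕ) : ℝ) ≤ q2 * ((2 ^ (n - g) : ℕ) : ℝ) := by
        have h1 : ((2 * nod n i0 + n : ℕ) : ℝ) ≤ (2 * 2 ^ (i0 + 1) + 1) * n := by
          have h2 := nod_le (n := n) (le_refl i0)
          have h3 : 2 * nod n i0 + n ≤ (2 * 2 ^ (i0 + 1) + 1) * n := by
            calc 2 * nod n i0 + n ≤ 2 * (2 ^ (i0 + 1) * n) + n := by omega
              _ = (2 * 2 ^ (i0 + 1) + 1) * n := by ring
          exact_mod_cast h3
        have h4 : (2 : ℝ) ^ ((1 - δ) * n) ≤ ((2 ^ (n - g) : ℕ) : ℝ) := by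
          push_cast
          rw [← Real.rpow_natCast]
          apply Real.rpow_le_rpow_of_exponent_le (by norm_num)
          rw [Nat.cast_sub hg]
          have h5 : (g : ℝ) ≤ δ * n := Nat.floor_le (by positivity)
          linarith
        refine h1.trans ((?_ : _ ≤ q2 * (2 : ℝ) ^ ((1 - δ) * n)).trans
          (mul_le_mul_of_nonneg_left h4 hq0.le))
        rw [hq2, one_div_mul_eq_div, le_div_iff₀ hden0]
        have h6 : (2 : ℝ) ^ ((1 - δ) * n) = 2 ^ ((1 - 2 * δ) * n) * 2 ^ (δ * n) := by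
          rw [← Real.rpow_add (by norm_num)]
          congr 1
          ring
        have h7 : (0 : ℝ) ≤ 2 ^ ((1 - 2 * δ) * n) := by positivity
        have h8 : S * t 0 * D ≤ S * (n : ℝ) ^ B * (n : ℝ) ^ (c + 2) := by
          have h9 : S * t 0 ≤ S * (n : ℝ) ^ B := mul_le_mul_of_nonneg_left ht0B hS0.le
          exact mul_le_mul h9 hDnR hD0.le (by positivity)
        have h10 : (0 : ℝ) ≤ (2 * 2 ^ (i0 + 1) + 1) * n := by positivity
        calc (2 * 2 ^ (i0 + 1) + 1) * (n : ℝ) * (2 * 10 ^ 4 * (S * t 0 * D))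
            ≤ (2 * 2 ^ (i0 + 1) + 1) * (n : ℝ) *
              (2 * 10 ^ 4 * (S * (n : ℝ) ^ B * (n : ℝ) ^ (c + 2))) := by
              apply mul_le_mul_of_nonneg_left _ h10
              linarith
          _ = 2 ^ ((1 - 2 * δ) * n) * ((2 * 2 ^ (i0 + 1) + 1) *
              (2 * 10 ^ 4 * ((C : ℝ) + 1) ^ 2) * (n : ℝ) ^ (B + (c + 2) + 1)) := by
              rw [hS]; ring
          _ ≤ 2 ^ ((1 - 2 * δ) * n) * 2 ^ (δ * n) := mul_le_mul_of_nonneg_left he3 h7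
          _ = 2 ^ ((1 - δ) * n) := h6.symm
      have h1 := exp_bd (by linarith : q2 ≤ 1) hM
      calc ((2 : ℝ) ^ nod n i0) ^ 2 * (1 - q2) ^ 2 ^ (n - g)
          ≤ ((2 : ℝ) ^ nod n i0) ^ 2 * (1 / 2 ^ (2 * nod n i0 + n)) :=
            mul_le_mul_of_nonneg_left h1 (by positivity)
        _ = 1 / 2 ^ n := by
            rw [pow_add, mul_comm 2 (nod n i0), pow_mul]
            field_simp
    have s4 : (2 : ℝ) ^ (m + 1) * errT (Fin n → Bool) (Ys n) (2 ^ (m + 1)) D (2 ^ n)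
        (1 / (64 * D)) i0 ≤ 1 / 200 := by
      have hρ : m + 10 ≤ n ^ (c + 2) := by omega
      have h1 := herr (m + 1) D (m + 10) (by omega) hDn hρ (by omega)
      have h2 : (0 : ℝ) ≤ 2 ^ (m + 1) := by positivity
      refine (mul_le_mul_of_nonneg_left h1 h2).trans ?_
      have h3 : (4 : ℝ) ^ (m + 10) = 2 ^ (m + 1) * 2 ^ (m + 19) := by
        rw [show (4 : ℝ) = 2 ^ 2 by norm_num, ← pow_mul, ← pow_add]
        congr 1
        ring
      have h4 : (2 : ℝ) ^ 19 ≤ 2 ^ (m + 19) := pow_le_pow_right₀ (by norm_num) (by omega)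
      rw [h3, mul_one_div, div_le_div_iff₀ (by positivity) (by norm_num)]
      have h5 : (200 : ℝ) ≤ 2 ^ (m + 19) := by
        refine le_trans ?_ h4
        norm_num
      rw [one_mul]
      exact mul_le_mul_of_nonneg_left h5 h2
    have s5 : (2 * k + 5) * (1 / (2 : ℝ) ^ n) ≤ 1 / 200 := by
      rw [mul_one_div, div_le_div_iff₀ (by positivity) (by norm_num)]
      simp only [pow_zero, mul_one] at he1
      linarith
    have s6 : k * (2 * (1 / (2 : ℝ) ^ n)) + (4 * (1 / 2 ^ n) + 1 / 2 ^ n) =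
        (2 * k + 5) * (1 / 2 ^ n) := by ring
    linarith

end Pool.Agent.H90.QC
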