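import Pool.Agent.H68.QC.Targets
import Pool.Agent.H70.OQ.All

/-!
# Parameters: common part
-/

set_option autoImplicit false

namespace Pool.Agent.H90.QC

open Finset Filter Pool.Agent.H70.OQ Pool.Agent.H68.QC

/-- powers are eventually below exponentials -/
theorem ev_pow (A : ℝ) (B : ℕ) {r : ℝ} (hr : 1 < r) :
    ∀ᶠ n : ℕ in atTop, A * (n : ℝ) ^ B ≤ r ^ n := by
  have h := isLittleO_pow_const_const_pow_of_one_lt (R := ℝ) B hr
  have hA : 0 < |A| + 1 := by positivity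
  filter_upwards [h.bound (c := 1 / (|A| + 1)) (by positivity)] with n hn
  have h1 : (0 : ℝ) ≤ (n : ℝ) ^ B := by positivity
  have h2 : (0 : ℝ) ≤ r ^ n := by positivity
  rw [Real.norm_of_nonneg h1, Real.norm_of_nonneg h2] at hn
  have h3 : (|A| + 1) * (n : ℝ) ^ B ≤ r ^ n := by
    calc (|A| + 1) * (n : ℝ) ^ B ≤ (|A| + 1) * (1 / (|A| + 1) * r ^ n) :=
          mul_le_mul_of_nonneg_left hn hA.le
      _ = r ^ n := by field_simp
  have h4 : A * (n : ℝ) ^ B ≤ (|A| + 1) * (n : ℝ) ^ B := by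
    apply mul_le_mul_of_nonneg_right _ h1
    have := le_abs_self A
    linarith
  exact h4.trans h3

theorem ev_rpow (A : ℝ) (B : ℕ) {δ : ℝ} (hδ : 0 < δ) :
    ∀ᶠ n : ℕ in atTop, A * (n : ℝ) ^ B ≤ (2 : ℝ) ^ (δ * n) := by
  have hr : 1 < (2 : ℝ) ^ δ := Real.one_lt_rpow (by norm_num) hδ
  filter_upwards [ev_pow A B hr] with n hn
  rwa [Real.rpow_mul (by norm_num), Real.rpow_natCast]

theorem ev_floor (A : ℝ) (B : ℕ) {δ : ℝ} (hδ : 0 < δ) :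
    ∀ᶠ n : ℕ in atTop, A * (n : ℝ) ^ B ≤ (2 : ℝ) ^ ⌊δ * n⌋₊ := by
  filter_upwards [ev_rpow (2 * A) B hδ] with n hn
  have h1 : δ * n - 1 ≤ (⌊δ * n⌋₊ : ℝ) := by
    have := Nat.lt_floor_add_one (δ * n)
    linarith
  have h2 : (2 : ℝ) ^ (δ * n - 1) ≤ (2 : ℝ) ^ ⌊δ * n⌋₊ := by
    rw [← Real.rpow_natCast]
    exact Real.rpow_le_rpow_of_exponent_le (by norm_num) h1
  rw [Real.rpow_sub (by norm_num), Real.rpow_one] at h2
  linarith

/-! ### The sizes of the questions -/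

/-- the sizes, in the reverse order -/
def tau (k m n : ℕ) : ℕ → ℕ
  | 0 => m
  | s + 1 => tau k m n s * ((2 * k + 1) * tau k m n s + m + n + 20)

theorem tau_pos {k m n : ℕ} (hm : 1 ≤ m) : ∀ s, 1 ≤ tau k m n s
  | 0 => hm
  | s + 1 => by
    have h := tau_pos hm (k := k) (n := n) s
    exact Nat.mul_pos h (by omega)

theorem om_le (k c b n m x : ℕ) (hn : 2 * k + 23 ≤ n) (hm : m ≤ n ^ c) (hx : x ≤ n ^ b) :
    (2 * k + 1) * x + m + n + 20 ≤ n ^ (b + c + 2) := by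
  have hn0 : 0 < n := by omega
  have h1 : n ^ b ≤ n ^ (b + c + 1) := Nat.pow_le_pow_right hn0 (by omega)
  have h2 : n ^ c ≤ n ^ (b + c + 1) := Nat.pow_le_pow_right hn0 (by omega)
  have h3 : n ≤ n ^ (b + c + 1) := Nat.le_self_pow (by omega) n
  have h4 : 1 ≤ n ^ (b + c + 1) := Nat.one_le_pow _ _ hn0
  calc (2 * k + 1) * x + m + n + 20
      ≤ (2 * k + 1) * n ^ (b + c + 1) + n ^ (b + c + 1) + n ^ (b + c + 1) +
        20 * n ^ (b + c + 1) := by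
        have h5 : (2 * k + 1) * x ≤ (2 * k + 1) * n ^ (b + c + 1) :=
          Nat.mul_le_mul_left _ (hx.trans h1)
        omega
    _ = (2 * k + 23) * n ^ (b + c + 1) := by ring
    _ ≤ n * n ^ (b + c + 1) := Nat.mul_le_mul_right _ hn
    _ = n ^ (b + c + 2) := by ring

theorem tau_le (k c : ℕ) : ∀ s, ∃ b, ∀ n, 2 * k + 23 ≤ n → ∀ m, m ≤ n ^ c →
    tau k m n s ≤ n ^ b
  | 0 => ⟨c, fun n _ m hm => hm⟩
  | s + 1 => by
    obtain ⟨b, hb⟩ := tau_le k c s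
    refine ⟨b + (b + c + 2), fun n hn m hm => ?_⟩
    rw [pow_add]
    exact Nat.mul_le_mul (hb n hn m hm) (om_le k c b n m _ hn hm (hb n hn m hm))

theorem par (k c : ℕ) : ∃ B : ℕ, ∀ n, 2 * k + 23 ≤ n → ∀ m, 1 ≤ m → m ≤ n ^ c →
    ∃ t w : ℕ → ℕ, t k = m ∧ (∀ r ≤ k, 1 ≤ t r) ∧
      (∀ r < k, t (r + 1) ≤ w r ∧ t (r + 1) * w r ≤ t r) ∧
      (∀ r < k, t (r + 1) * (2 * r + 1) + m + n + 20 ≤ w r) ∧
      (∀ r < k, 1 ≤ w r ∧ w r ≤ n ^ B) ∧ ∀ r ≤ k, t r ≤ n ^ B := by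
  choose b hb using tau_le k c
  obtain ⟨B, hB⟩ : ∃ B, ∀ s ≤ k, b s + c + 2 ≤ B := by
    refine ⟨∑ s ∈ range (k + 1), (b s + c + 2), fun s hs => ?_⟩
    exact single_le_sum (f := fun s => b s + c + 2) (fun _ _ => Nat.zero_le _)
      (mem_range.2 (by omega))
  refine ⟨B, fun n hn m hm1 hm => ?_⟩
  have hn0 : 0 < n := by omega
  refine ⟨fun r => tau k m n (k - r), fun r => (2 * k + 1) * tau k m n (k - (r + 1)) + m + n + 20,
    ?_, ?_, ?_, ?_, ?_, ?_⟩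
  · simp [tau]
  · intro r _
    exact tau_pos hm1 _
  · intro r hr
    refine ⟨by nlinarith [Nat.zero_le (tau k m n (k - (r + 1)))], ?_⟩
    have h1 : k - r = (k - (r + 1)) + 1 := by omega
    simp only
    rw [h1]
    exact le_refl _
  · intro r hr
    have h1 : tau k m n (k - (r + 1)) * (2 * r + 1) ≤ (2 * k + 1) * tau k m n (k - (r + 1)) := by
      rw [mul_comm]
      exact Nat.mul_le_mul_right _ (by omega)
    simp only
    omega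
  · intro r hr
    refine ⟨?_, ?_⟩
    · change 1 ≤ (2 * k + 1) * tau k m n (k - (r + 1)) + m + n + 20
      omega
    refine (om_le k c (b (k - (r + 1))) n m _ hn hm (hb _ n hn m hm)).trans ?_
    exact Nat.pow_le_pow_right hn0 (hB _ (by omega))
  · intro r hr
    refine (hb _ n hn m hm).trans ?_
    exact Nat.pow_le_pow_right hn0 (by have := hB (k - r) (by omega); omega)

/-! ### Errors -/

theorem erho_le {m t w r n : ℕ} (h : t * (2 * r + 1) + m + n + 20 ≤ w) :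
    erho m t w r ≤ 1 / 2 ^ n := by
  unfold erho
  have h1 : (2 : ℝ) ^ (t * (2 * r + 1) + m + n + 20) ≤ 2 ^ w :=
    pow_le_pow_right₀ (by norm_num) h
  have h2 : (2 : ℝ) ^ (m + 1) * (2 ^ (t * (2 * r + 1)) * (5 / 2 ^ (w + 1))) =
      5 * (2 ^ (t * (2 * r + 1)) * 2 ^ m) / 2 ^ w := by
    field_simp
    ring
  rw [h2, div_le_div_iff₀ (by positivity) (by positivity)]
  have h3 : (2 : ℝ) ^ (t * (2 * r + 1) + m + n + 20) =
      (2 ^ (t * (2 * r + 1)) * 2 ^ m) * 2 ^ n * 2 ^ 20 := by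
    rw [pow_add, pow_add, pow_add]
  have h4 : (0 : ℝ) ≤ (2 ^ (t * (2 * r + 1)) * 2 ^ m) * 2 ^ n := by positivity
  calc 5 * (2 ^ (t * (2 * r + 1)) * 2 ^ m) * (2 : ℝ) ^ n
      = ((2 ^ (t * (2 * r + 1)) * 2 ^ m) * 2 ^ n) * 5 := by ring
    _ ≤ ((2 ^ (t * (2 * r + 1)) * 2 ^ m) * 2 ^ n) * 2 ^ 20 := by
      apply mul_le_mul_of_nonneg_left _ h4
      norm_num
    _ ≤ 1 * 2 ^ w := by rw [one_mul, ← h3]; exact h1

/-- `(1 - q) ^ N ≤ 2 ^ (- M)` if `M ≤ q N` -/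
theorem exp_bd {q : ℝ} {N M : ℕ} (hq : q ≤ 1) (h : (M : ℝ) ≤ q * N) :
    (1 - q) ^ N ≤ 1 / 2 ^ M := by
  have h1 : 1 - q ≤ Real.exp (-q) := Real.one_sub_le_exp_neg _
  have h2 : (1 - q) ^ N ≤ Real.exp (-q) ^ N := pow_le_pow_left₀ (by linarith) h1 _
  have h3 : Real.exp (-q) ^ N ≤ Real.exp (-(M : ℝ)) := by
    rw [← Real.exp_nat_mul]
    apply Real.exp_le_exp.mpr
    linarith
  have h4 : Real.exp (-(M : ℝ)) ≤ 1 / 2 ^ M := by
    have h5 : Real.exp (-(M : ℝ)) = (Real.exp (-1)) ^ M := by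
      rw [← Real.exp_nat_mul]
      congr 1
      ring
    rw [h5, ← one_div_pow]
    apply pow_le_pow_left₀ (Real.exp_pos _).le
    rw [Real.exp_neg, one_div]
    apply inv_anti₀ (by norm_num)
    have := Real.add_one_le_exp (1 : ℝ)
    linarith
  exact h2.trans (h3.trans h4)

theorem nod_le {n i I : ℕ} (h : i ≤ I) : nod n i ≤ 2 ^ (I + 1) * n := by
  unfold nod
  apply Nat.mul_le_mul_right
  exact (Nat.sub_le _ _).trans (Nat.pow_le_pow_right (by norm_num) (by omega))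

theorem elam_le (I B : ℕ) {δ : ℝ} (hδ : 0 < δ) (hδ1 : δ ≤ 1) : ∀ᶠ n : ℕ in atTop,
    ⌊δ * n⌋₊ ≤ n ∧ ∀ i ≤ I, ∀ w : ℕ, 1 ≤ w → w ≤ n ^ B →
      elam n i ⌊δ * n⌋₊ (1 / (64 * w)) ≤ 1 / 2 ^ n := by
  filter_upwards [ev_floor (64 * (2 * 2 ^ (I + 1) + 2)) (B + 1) hδ] with n hn
  have hg : ⌊δ * n⌋₊ ≤ n := by
    have : δ * n ≤ n := mul_le_of_le_one_left (by positivity) hδ1
    exact (Nat.floor_le_floor this).trans (by simp)
  refine ⟨hg, fun i hi w hw1 hw => ?_⟩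
  have hwR : (1 : ℝ) ≤ w := by exact_mod_cast hw1
  have hw0 : (0 : ℝ) < w := by linarith
  set g := ⌊δ * n⌋₊ with hgdef
  have hwn : (w : ℝ) ≤ (n : ℝ) ^ B := by exact_mod_cast hw
  have hM : (((2 * 2 ^ (I + 1) + 2) * n : ℕ) : ℝ) ≤ 1 / (64 * (w : ℝ)) * ((2 ^ g : ℕ) : ℝ) := by
    rw [one_div_mul_eq_div, le_div_iff₀ (by positivity)]
    push_cast
    have h0 : (0 : ℝ) ≤ (2 * 2 ^ (I + 1) + 2) * n := by positivity
    calc (2 * 2 ^ (I + 1) + 2) * (n : ℝ) * (64 * w)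
        ≤ (2 * 2 ^ (I + 1) + 2) * (n : ℝ) * (64 * (n : ℝ) ^ B) := by
          apply mul_le_mul_of_nonneg_left _ h0
          linarith
      _ = 64 * (2 * 2 ^ (I + 1) + 2) * (n : ℝ) ^ (B + 1) := by ring
      _ ≤ 2 ^ g := hn
  have hq1 : 1 / (64 * (w : ℝ)) ≤ 1 := by
    rw [div_le_one (by positivity)]
    linarith
  have h1 := exp_bd hq1 hM
  have h2 : (0 : ℝ) ≤ (1 - 1 / (64 * (w : ℝ))) ^ 2 ^ g := pow_nonneg (by linarith) _
  unfold elam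
  have h3 : ((2 : ℝ) ^ nod n i) ^ 2 * 2 ^ (n - g) ≤ 2 ^ (2 * (2 ^ (I + 1) * n) + n) := by
    rw [← pow_mul, ← pow_add]
    apply pow_le_pow_right₀ (by norm_num)
    have := nod_le (n := n) hi
    omega
  calc ((2 : ℝ) ^ nod n i) ^ 2 * 2 ^ (n - g) * (1 - 1 / (64 * (w : ℝ))) ^ 2 ^ g
      ≤ 2 ^ (2 * (2 ^ (I + 1) * n) + n) * (1 / 2 ^ ((2 * 2 ^ (I + 1) + 2) * n)) :=
        mul_le_mul h3 h1 h2 (by positivity)
    _ = 1 / 2 ^ n := by
      have h4 : (2 * 2 ^ (I + 1) + 2) * n = (2 * (2 ^ (I + 1) * n) + n) + n := by ring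
      rw [h4, pow_add _ (2 * (2 ^ (I + 1) * n) + n) n]
      field_simp

/-- the factor of the number of queries -/
theorem qr_le (C : ℕ) {ε δ : ℝ} (h1 : δ ≤ ε) (h2 : δ ≤ 1 / 2) (n : ℕ) :
    (C * 2 ^ ((1 / 2 - ε) * n) + 1 : ℝ) ^ 2 ≤ ((C : ℝ) + 1) ^ 2 * 2 ^ ((1 - 2 * δ) * n) := by
  have h3 : (2 : ℝ) ^ ((1 / 2 - ε) * n) ≤ 2 ^ ((1 / 2 - δ) * n) := by
    apply Real.rpow_le_rpow_of_exponent_le (by norm_num)
    apply mul_le_mul_of_nonneg_right _ (by positivity)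
    linarith
  have h4 : (1 : ℝ) ≤ 2 ^ ((1 / 2 - δ) * n) := by
    apply Real.one_le_rpow (by norm_num)
    apply mul_nonneg (by linarith) (by positivity)
  have h5 : (2 : ℝ) ^ ((1 - 2 * δ) * n) = (2 ^ ((1 / 2 - δ) * n)) ^ 2 := by
    rw [← Real.rpow_natCast, ← Real.rpow_mul (by norm_num)]
    congr 1
    push_cast
    ring
  rw [h5, ← mul_pow]
  have h6 : (0 : ℝ) ≤ 2 ^ ((1 / 2 - ε) * n) := by positivity
  have h7 : (0 : ℝ) ≤ C := Nat.cast_nonneg C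
  apply pow_le_pow_left₀ (by positivity)
  nlinarith

end Pool.Agent.H90.QC
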